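import Pool.Agent.Y600.DC.Stm

/-!
# Berge's theorem: balanced hypergraphs are 2-colourable (block `S_BICOL`)
-/

namespace Pool.Agent.Y832.DC

open Pool.Agent.Y600.DC

variable {I V : Type}

/-- the graph of the traces with exactly two elements -/
def twoGraph (R : I → V → Prop) (W : Finset V) : SimpleGraph V where
  Adj x y := x ∈ W ∧ y ∈ W ∧ x ≠ y ∧ ∃ i, ∀ z ∈ W, (R i z ↔ z = x ∨ z = y)
  symm := ⟨fun x y ⟨hx, hy, hne, i, h⟩ =>
    ⟨hy, hx, hne.symm, i, fun z hz => by rw [h z hz]; exact or_comm⟩⟩
  loopless := ⟨fun x h => h.2.2.1 rfl⟩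

/-- a closed walk `x, p 0, ..., p k, x` gives an odd special cycle if `k` is odd -/
theorem no_odd_path {R : I → V → Prop} (hR : RelBalanced R) {W : Finset V} {x y z : V}
    (hxy : (twoGraph R W).Adj x y) (hxz : (twoGraph R W).Adj x z)
    (p : (twoGraph R W).Walk y z) (hp : p.IsPath) (hx : x ∉ p.support) : Even p.length := by
  by_contra hodd
  rw [Nat.not_even_iff_odd] at hodd
  set k := p.length with hk
  -- the vertices of the cycle
  let q : (twoGraph R W).Walk x x := SimpleGraph.Walk.cons hxy (p.concat hxz.symm)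
  have hql : q.length = k + 2 := by
    simp [q, hk]
  have hq0 : ∀ j, j ≤ k → q.getVert (j + 1) = p.getVert j := by
    intro j hj
    simp only [q, SimpleGraph.Walk.getVert_cons_succ]
    rw [SimpleGraph.Walk.concat_eq_append, SimpleGraph.Walk.getVert_append]
    split_ifs with h
    · rfl
    · have : j = k := by omega
      subst this
      simp [hk]
  have hq1 : q.getVert 0 = x := by simp
  have hq2 : q.getVert (k + 2) = x := by
    rw [← hql]; simp
  haveI : NeZero (k + 2) := ⟨by omega⟩
  let X : ZMod (k + 2) → V := fun i => q.getVert i.val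
  have hval : ∀ i : ZMod (k + 2), i.val < k + 2 := fun i => ZMod.val_lt i
  have hXne : ∀ j, j ≤ k → p.getVert j ≠ x := by
    intro j hj h
    exact hx (h ▸ p.getVert_mem_support j)
  have hinj : Function.Injective X := by
    intro i j hij
    have hi := hval i
    have hj := hval j
    simp only [X] at hij
    apply ZMod.val_injective
    rcases Nat.eq_zero_or_pos i.val with h1 | h1 <;> rcases Nat.eq_zero_or_pos j.val with h2 | h2
    · rw [h1, h2]
    · exfalso
      obtain ⟨j', hj'⟩ : ∃ j', j.val = j' + 1 := ⟨j.val - 1, by omega⟩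
      rw [h1, hj', hq1, hq0 j' (by omega)] at hij
      exact hXne j' (by omega) hij.symm
    · exfalso
      obtain ⟨j', hj'⟩ : ∃ j', i.val = j' + 1 := ⟨i.val - 1, by omega⟩
      rw [h2, hj', hq1, hq0 j' (by omega)] at hij
      exact hXne j' (by omega) hij
    · obtain ⟨i', hi'⟩ : ∃ j', i.val = j' + 1 := ⟨i.val - 1, by omega⟩
      obtain ⟨j', hj'⟩ : ∃ j', j.val = j' + 1 := ⟨j.val - 1, by omega⟩
      rw [hi', hj', hq0 i' (by omega), hq0 j' (by omega)] at hij
      have := hp.getVert_injOn (by simpa [hk] using (show i' ≤ k by omega))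
        (by simpa [hk] using (show j' ≤ k by omega)) hij
      omega
  have hadj : ∀ i : ZMod (k + 2), (twoGraph R W).Adj (X i) (X (i + 1)) := by
    intro i
    have hi := hval i
    have h1 := q.adj_getVert_succ (i := i.val) (by omega)
    have h2 : X (i + 1) = q.getVert (i.val + 1) := by
      simp only [X]
      rw [ZMod.val_add]
      have h3 : (1 : ZMod (k + 2)).val = 1 := by
        rw [ZMod.val_one_eq_one_mod]; exact Nat.mod_eq_of_lt (by omega)
      rw [h3]
      rcases Nat.lt_or_ge (i.val + 1) (k + 2) with h | h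
      · rw [Nat.mod_eq_of_lt h]
      · have : i.val + 1 = k + 2 := by omega
        rw [this, Nat.mod_self, hq1, hq2]
    rw [h2]
    exact h1
  choose hXW hXW' hne e he using hadj
  refine hR (k + 2) ?_ ?_ e X hinj ?_
  · exact hodd.add_even (by decide)
  · have : 1 ≤ k := hodd.pos
    omega
  · intro i j
    rw [he i (X j) (hXW j)]
    constructor
    · rintro (h | h)
      · exact Or.inl (hinj h)
      · exact Or.inr (hinj h)
    · rintro (h | h)
      · exact Or.inl (by rw [h])
      · exact Or.inr (by rw [h])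

/-- the traces with two elements are coloured properly along walks avoiding `x` -/
theorem walk_parity {R : I → V → Prop} {W : Finset V} {x : V} (c : V → Bool)
    (hc : ∀ y z, (twoGraph R W).Adj y z → y ≠ x → z ≠ x → c y ≠ c z) {y z : V}
    (p : (twoGraph R W).Walk y z) (hx : x ∉ p.support) : (c y = c z ↔ Even p.length) := by
  induction p with
  | nil => simp
  | @cons u v w h p ih =>
    rw [SimpleGraph.Walk.support_cons, List.mem_cons, not_or] at hx
    have h1 := ih hx.2
    have h2 : c u ≠ c v := by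
      refine hc u v h (Ne.symm hx.1) ?_
      intro h3
      exact hx.2 (h3 ▸ p.start_mem_support)
    rw [SimpleGraph.Walk.length_cons, Nat.even_add_one, ← h1]
    revert h2
    cases c u <;> cases c v <;> cases c w <;> simp

/-- a vertex at maximal distance from the root is no cut vertex -/
theorem avoid_walk {G : SimpleGraph V} {r x : V}
    (hmax : ∀ y, G.Reachable r y → G.dist r y ≤ G.dist r x) (hrx : r ≠ x) {y : V}
    (hy : G.Reachable r y) (hyx : y ≠ x) : ∃ p : G.Walk r y, x ∉ p.support := by
  classical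
  obtain ⟨p, hp⟩ := hy.exists_walk_length_eq_dist
  refine ⟨p, fun hx => ?_⟩
  have h1 := hmax y hy
  have h2 : G.dist r x ≤ (p.takeUntil x hx).length := SimpleGraph.dist_le _
  have h3 := SimpleGraph.Walk.length_takeUntil_lt hx hyx.symm
  omega

/-- **Berge.** -/
theorem bicol : S_BICOL := by
  classical
  intro I V R hR W
  induction hn : W.card using Nat.strong_induction_on generalizing W with
  | _ n IH =>
  subst hn
  -- traces and deletion of a vertex
  have dich : ∀ x ∈ W, ∀ i, (∃ u ∈ W, ∃ v ∈ W, u ≠ v ∧ R i u ∧ R i v) →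
      (∃ u ∈ W.erase x, ∃ v ∈ W.erase x, u ≠ v ∧ R i u ∧ R i v) ∨
        ∃ y, (twoGraph R W).Adj x y ∧ R i x ∧ R i y := by
    intro x hx i hi
    by_cases h : ∃ u ∈ W.erase x, ∃ v ∈ W.erase x, u ≠ v ∧ R i u ∧ R i v
    · exact Or.inl h
    · right
      push Not at h
      have key : ∀ y ∈ W, y ≠ x → R i x → R i y →
          ∃ y, (twoGraph R W).Adj x y ∧ R i x ∧ R i y := by
        intro y hy hyx hix hiy
        refine ⟨y, ⟨hx, hy, hyx.symm, i, ?_⟩, hix, hiy⟩
        intro z hz
        constructor
        · intro hiz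
          by_contra hcon
          push Not at hcon
          exact h z (Finset.mem_erase.2 ⟨hcon.1, hz⟩) y (Finset.mem_erase.2 ⟨hyx, hy⟩) hcon.2 hiz
            hiy
        · rintro (rfl | rfl) <;> assumption
      obtain ⟨u, hu, v, hv, huv, hiu, hiv⟩ := hi
      by_cases hux : u = x
      · subst hux
        exact key v hv huv.symm hiu hiv
      · by_cases hvx : v = x
        · subst hvx
          exact key u hu huv hiv hiu
        · exact absurd hiv (h u (Finset.mem_erase.2 ⟨hux, hu⟩) v (Finset.mem_erase.2 ⟨hvx, hv⟩)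
            huv hiu)
  rcases W.eq_empty_or_nonempty with rfl | ⟨r, hr⟩
  · exact ⟨fun _ => true, fun i ⟨x, hx, _⟩ => absurd hx (Finset.notMem_empty x)⟩
  by_cases hiso : ∃ y, (twoGraph R W).Adj r y
  swap
  · -- isolated vertex
    push Not at hiso
    obtain ⟨c, hc⟩ := IH _ (Finset.card_erase_lt_of_mem hr) (W.erase r) rfl
    refine ⟨c, fun i hi b => ?_⟩
    rcases dich r hr i hi with h | ⟨y, h, _⟩
    · obtain ⟨w, hw, h1, h2⟩ := hc i h b
      exact ⟨w, Finset.mem_of_mem_erase hw, h1, h2⟩
    · exact absurd h (hiso y)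
  obtain ⟨r', hr'⟩ := hiso
  -- a vertex at maximal distance
  have hmemW : ∀ y, (twoGraph R W).Reachable r y → y ∈ W := by
    intro y hy
    by_cases h : r = y
    · exact h ▸ hr
    · obtain ⟨p⟩ := hy
      have : ¬ p.Nil := SimpleGraph.Walk.not_nil_of_ne h
      have h2 := p.adj_penultimate this
      exact h2.2.1
  obtain ⟨x, hxS, hxmax⟩ := Finset.exists_max_image
    (W.filter (fun y => (twoGraph R W).Reachable r y)) (fun y => (twoGraph R W).dist r y)
    ⟨r, Finset.mem_filter.2 ⟨hr, SimpleGraph.Reachable.refl r⟩⟩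
  rw [Finset.mem_filter] at hxS
  obtain ⟨hxW, hrx⟩ := hxS
  have hmax : ∀ y, (twoGraph R W).Reachable r y →
      (twoGraph R W).dist r y ≤ (twoGraph R W).dist r x := fun y hy =>
    hxmax y (Finset.mem_filter.2 ⟨hmemW y hy, hy⟩)
  have hrx' : r ≠ x := by
    intro h
    have h1 := hmax r' hr'.reachable
    rw [← h, SimpleGraph.dist_self] at h1
    have h2 : (twoGraph R W).dist r r' = 1 := SimpleGraph.dist_eq_one_iff_adj.2 hr'
    omega
  obtain ⟨c, hc⟩ := IH _ (Finset.card_erase_lt_of_mem hxW) (W.erase x) rfl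
  have hc2 : ∀ y z, (twoGraph R W).Adj y z → y ≠ x → z ≠ x → c y ≠ c z := by
    rintro y z ⟨hy, hz, hyz, i, hi⟩ hyx hzx heq
    have hiy : R i y := (hi y hy).2 (Or.inl rfl)
    have hiz : R i z := (hi z hz).2 (Or.inr rfl)
    obtain ⟨w, hw, h1, h2⟩ := hc i ⟨y, Finset.mem_erase.2 ⟨hyx, hy⟩, z,
      Finset.mem_erase.2 ⟨hzx, hz⟩, hyz, hiy, hiz⟩ (!c y)
    rcases (hi w (Finset.mem_of_mem_erase hw)).1 h1 with rfl | rfl
    · simp at h2
    · rw [heq] at h2
      simp at h2
  -- neighbours of `x` have the same colour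
  have hnb : ∀ y z, (twoGraph R W).Adj x y → (twoGraph R W).Adj x z → c y = c z := by
    intro y z hy hz
    have hy1 : (twoGraph R W).Reachable r y := hrx.trans hy.reachable
    have hz1 : (twoGraph R W).Reachable r z := hrx.trans hz.reachable
    obtain ⟨p, hp⟩ := avoid_walk hmax hrx' hy1 hy.ne.symm
    obtain ⟨q, hq⟩ := avoid_walk hmax hrx' hz1 hz.ne.symm
    have hw : x ∉ (p.reverse.append q).support := by
      rw [SimpleGraph.Walk.mem_support_append_iff, SimpleGraph.Walk.support_reverse,
        List.mem_reverse, not_or]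
      exact ⟨hp, hq⟩
    have hw' : x ∉ (p.reverse.append q).bypass.support := fun h =>
      hw (SimpleGraph.Walk.support_bypass_subset _ h)
    exact (walk_parity c hc2 _ hw').2
      (no_odd_path hR hy hz _ (SimpleGraph.Walk.bypass_isPath _) hw')
  -- a neighbour
  obtain ⟨y0, hy0⟩ : ∃ y0, ∀ y, (twoGraph R W).Adj x y → c y = c y0 := by
    by_cases h : ∃ y, (twoGraph R W).Adj x y
    · obtain ⟨y0, h0⟩ := h
      exact ⟨y0, fun y hy => hnb y y0 hy h0⟩
    · push Not at h
      exact ⟨x, fun y hy => absurd hy (h y)⟩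
  refine ⟨Function.update c x (!c y0), fun i hi b => ?_⟩
  rcases dich x hxW i hi with h | ⟨y, h, hix, hiy⟩
  · obtain ⟨w, hw, h1, h2⟩ := hc i h b
    refine ⟨w, Finset.mem_of_mem_erase hw, h1, ?_⟩
    rw [Function.update_of_ne (Finset.ne_of_mem_erase hw)]
    exact h2
  · have h3 := hy0 y h
    by_cases hb : b = c y0
    · refine ⟨y, h.2.1, hiy, ?_⟩
      rw [Function.update_of_ne h.ne.symm, h3, hb]
    · refine ⟨x, hxW, hix, ?_⟩
      rw [Function.update_self]
      revert hb
      cases b <;> cases c y0 <;> simp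

end Pool.Agent.Y832.DC
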